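import Pool.Agent.H.MP_868529_lc.Defs
import Pool.Agent.Lib.helper25.RelGr

namespace Pool.Agent.H.MP_868529_lc

open Pool.Agent.Lib.CX

variable {W : Type}

def Lab (P : W → Prop) (A : W → W → Prop) (k : ℕ) (L : W → ℕ → Bool) : Prop :=
  ∀ u v, P u → P v → ((∀ j ≤ k, L u j = L v j) → u = v) ∧ (A u v ↔ ∀ j < k, L u (j + 1) = L v j)

def Bf (P : W → Prop) (A : W → W → Prop) (lv : W → ℕ) (d : ℕ) (w : W → ℕ → Bool) : Prop :=
  ∀ u v, P u → P v → (lv u = lv v → (∀ c < d, w u c = w v c) → u = v) ∧
    (lv v = lv u + 1 → (A u v ↔ ∀ c < d, c ≠ lv u → w u c = w v c))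

theorem ls [DecidableEq W] (vs : List W) (r : W × W → Bool) :
    InL2 (relGr vs r).arc ↔ ∃ k L, Lab (· ∈ vs) (fun u v => r (u, v) = true) k L := by
  constructor
  · rintro ⟨k, L, a, b⟩
    choose f hf using fun p (h : p ∈ vs) => (relNm_range vs r p).1 h
    refine ⟨k, fun p j => if h : p ∈ vs ∧ j ≤ k then L (f p h.1) ⟨j, by omega⟩ else false, fun u v hu hv =>
      ⟨fun q => (hf u hu).symm.trans ((congrArg _ (a (funext fun j => ?_))).trans (hf v hv)), ?_⟩⟩
    · simpa [hu, hv, Nat.le_of_lt_succ j.2] using q j (by omega)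
    · have := (relGr_arc vs r (f u hu) (f v hv)).symm.trans (b _ _)
      rw [hf, hf] at this
      refine this.trans ⟨fun q j hj => ?_, fun q => funext fun j => ?_⟩
      · beta_reduce; rw [dif_pos ⟨hu, hj⟩, dif_pos ⟨hv, hj.le⟩]; exact congrFun q ⟨j, hj⟩
      · have := q j j.2
        beta_reduce at this
        rwa [dif_pos ⟨hu, j.2⟩, dif_pos ⟨hv, j.2.le⟩] at this
  · rintro ⟨k, L, h⟩
    have m := fun u => (relNm_range vs r _).2 ⟨u, rfl⟩
    refine ⟨k, fun u j => L (relNm vs r u) j, fun u v e => relNm_inj vs r ((h _ _ (m u) (m v)).1 fun j hj =>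
      congrFun e ⟨j, by omega⟩), fun u v => (relGr_arc vs r u v).trans ((h _ _ (m u) (m v)).2.trans ?_)⟩
    exact ⟨fun q => funext fun j => q j j.2, fun q j hj => congrFun q ⟨j, hj⟩⟩

theorem fwd0 {P A k L} {lv : W → ℕ} (h : Lab P A k L) (hl : ∀ u, P u → lv u ≤ k + 1) :
    ∃ w, Bf P A lv (k + 1) w := by
  refine ⟨fun u c => L u (if c < lv u then c + (k + 1) - lv u else c - lv u), fun u v a b =>
    ⟨fun e q => (h u v a b).1 fun j hj => ?_, fun e => (h u v a b).2.trans ⟨fun q c hc hc' => ?_, fun q j hj => ?_⟩⟩⟩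
  all_goals have := hl u a; have := hl v b
  · have := q (if j + lv u ≤ k then j + lv u else j + lv u - (k + 1)) (by split_ifs <;> omega)
    convert this using 2 <;> split_ifs <;> omega
  · have := q (if c < lv u then c + k - lv u else c - lv u - 1) (by split_ifs <;> omega)
    convert this using 2 <;> split_ifs <;> omega
  · have := q (if j + lv u < k then j + lv u + 1 else j + lv u - k) (by split_ifs <;> omega) (by split_ifs <;> omega)
    convert this using 2 <;> split_ifs <;> omega

theorem bwd0 {P A d w} {lv : W → ℕ} (h : Bf P A lv d w) (hl : ∀ u, P u → lv u ≤ d)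
    (ha : ∀ u v, A u v → lv v = lv u + 1) : ∃ k L, Lab P A k L := by
  let f := fun u t => if t < d then w u t else if t ≤ 3 * d + 4 then decide (t = 2 * d + 2) else w u (t - (3 * d + 5))
  have k : ∀ u v x y, x ≤ d + 1 → y ≤ d → f u (2 * d + 2) = f v (y + (2 * d + 2 - x)) → y = x := fun u v x y a b e => by
    simp only [f] at e
    rw [if_neg (by omega), if_pos (by omega), if_neg (by omega), if_pos (by omega)] at e
    simp at e; omega
  have k' : ∀ u v c, c < d → (f u c = f v c ↔ w u c = w v c) ∧
      (f u (c + (3 * d + 5)) = f v (c + (3 * d + 5)) ↔ w u c = w v c) := fun u v c h => by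
    simp only [f]
    rw [if_pos h, if_pos h, if_neg (by omega), if_neg (by omega), if_neg (by omega), if_neg (by omega)]
    simp
  refine ⟨3 * d + 4, fun u j => f u (lv u + j), fun u v a b => ⟨fun q => ?_, fun q j hj => ?_, fun q => ?_⟩⟩
  all_goals have := hl u a; have := hl v b; beta_reduce at q ⊢
  · have e := k u v (lv u) (lv v) (by omega) this (by
      have := q (2 * d + 2 - lv u) (by omega)
      rwa [show lv u + (2 * d + 2 - lv u) = 2 * d + 2 by omega] at this)
    refine (h u v a b).1 e.symm fun c hc => ?_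
    by_cases c < lv u
    · have := q (c + (3 * d + 5) - lv u) (by omega)
      rw [e, show lv u + (c + (3 * d + 5) - lv u) = c + (3 * d + 5) by omega] at this
      exact (k' u v c hc).2.1 this
    · have := q (c - lv u) (by omega)
      rw [e, show lv u + (c - lv u) = c by omega] at this
      exact (k' u v c hc).1.1 this
  · have e := ha u v q
    have := ((h u v a b).2 e).1 q
    simp only [e, f, show lv u + (j + 1) = lv u + 1 + j by omega]
    split_ifs
    exacts [this _ (by omega) (by omega), rfl, this _ (by omega) (by omega)]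
  · have e := k u v (lv u + 1) (lv v) (by omega) this (by
      have := q (2 * d + 2 - (lv u + 1)) (by omega)
      rwa [show lv u + (2 * d + 2 - (lv u + 1) + 1) = 2 * d + 2 by omega] at this)
    refine ((h u v a b).2 e).2 fun c hc hc' => ?_
    by_cases c < lv u
    · have := q (c + (3 * d + 4) - lv u) (by omega)
      rw [e, show lv u + (c + (3 * d + 4) - lv u + 1) = c + (3 * d + 5) by omega,
        show lv u + 1 + (c + (3 * d + 4) - lv u) = c + (3 * d + 5) by omega] at this
      exact (k' u v c hc).2.1 this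
    · have := q (c - lv u - 1) (by omega)
      rw [e, show lv u + (c - lv u - 1 + 1) = c by omega, show lv u + 1 + (c - lv u - 1) = c by omega] at this
      exact (k' u v c hc).1.1 this

end Pool.Agent.H.MP_868529_lc
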