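import Pool.Agent.H.MP_868529_lc.A

namespace Pool.Agent.H.MP_868529_lc

abbrev K := ℕ × ℕ × ℕ × ℕ

def In (n r : ℕ) (adj : ℕ → ℕ → Prop) (x : K) : Prop :=
  x.2.2.1 < n ∧ x.2.2.2 < n ∧ adj x.2.2.1 x.2.2.2 ∧ ((x.1 = 0 ∨ x.1 = 3) ∧ x.2.1 ≤ r + 4 ∨
    x.1 = 1 ∧ 1 ≤ x.2.1 ∧ x.2.1 ≤ 4 ∨ x.1 = 2 ∧ 1 ≤ x.2.1 ∧ x.2.1 ≤ 3) ∨
  x.1 = 4 ∧ x.2.2.1 < n ∧ r + 5 ≤ x.2.1 ∧ x.2.1 ≤ 2 * r + 5 ∧ x.2.2.2 < 2 ^ (2 * r + 5 - x.2.1) ∨
  x.1 = 5 ∧ x.2.1 = 0 ∧ x.2.2.1 = 0 ∧ x.2.2.2 < 2 ^ (2 * r + 5)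

def o (x : K) : ℕ := if x.1 = 3 then x.2.2.2 else x.2.2.1
def ad (n : ℕ) (x : K) : ℕ := if x.1 = 4 then x.2.2.2 else x.2.2.1 * n + x.2.2.2

def A (n : ℕ) (x y : K) : Prop := y.2.1 = x.2.1 + 1 ∧
  (x.1 < 4 ∧ y.1 < 4 ∧ x.2.2 = y.2.2 ∧ (x.1 = y.1 ∨ x.2.1 = 0 ∧ (x.1 = 0 ∧ y.1 = 1 ∨ x.1 = 3 ∧ y.1 = 2) ∨
    x.2.1 = 3 ∧ x.1 = 2 ∧ y.1 = 1) ∨
  (x.1 = 0 ∨ x.1 = 3) ∧ y.1 = 4 ∧ y.2.2.1 = o x ∧ y.2.2.2 = ad n x ∨
  x.1 = 4 ∧ y.1 = 4 ∧ y.2.2.1 = x.2.2.1 ∧ y.2.2.2 = x.2.2.2 / 2)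

variable {n r : ℕ} {adj : ℕ → ℕ → Prop}

theorem ad_lt (hn : n * n ≤ 2 ^ r) {a b} (ha : a < n) (hb : b < n) : a * n + b < 2 ^ r := by nlinarith

theorem fwd (hn : n * n ≤ 2 ^ r) {k L} (h : Lab (In n r adj) (A n) k L) :
    ∃ col : ℕ → Bool × Bool, ∀ a < n, ∀ b < n, adj a b → col a ≠ col b := by
  have hk : 2 * r + 5 ≤ k + 1 := by
    have := Fintype.card_le_of_injective (fun (j : Fin (2 ^ (2 * r + 5))) (i : Fin (k + 1)) => L (5, 0, 0, j) i)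
      fun i j e => Fin.ext (by
        simpa using (h (5, 0, 0, i) (5, 0, 0, j) (by simp [In]) (by simp [In])).1 fun c hc => congrFun e ⟨c, by omega⟩)
    simp only [Fintype.card_fin, Fintype.card_fun, Fintype.card_bool] at this
    exact (Nat.pow_le_pow_iff_right (by omega)).1 this
  obtain ⟨w, hw⟩ := fwd0 (lv := fun x => x.2.1) h fun x hx => by unfold In at hx; omega
  have ar : ∀ {x y}, In n r adj x → In n r adj y → A n x y → ∀ c ≤ k, c ≠ x.2.1 → w x c = w y c :=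
    fun a b e c hc => ((hw _ _ a b).2 e.1).1 e c (by omega)
  have tr : ∀ c ≤ 2, ∀ a < n, ∀ i ≤ r, ∀ s < 2 ^ i, w (4, 2 * r + 5 - i, a, s) c = w (4, 2 * r + 5, a, 0) c := by
    intro c hc a ha i
    induction i with
    | zero => intro _ s hs; obtain rfl : s = 0 := by simpa using hs
              rfl
    | succ i ih =>
      intro hi s hs
      have q : s / 2 < 2 ^ i := by rw [pow_succ] at hs; omega
      refine .trans ?_ (ih (by omega) _ q)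
      refine ar (x := (4, _, a, s)) (y := (4, _, a, s / 2)) (.inr (.inl ⟨rfl, ha, ?_, ?_, ?_⟩))
        (.inr (.inl ⟨rfl, ha, ?_, ?_, ?_⟩)) ⟨?_, .inr (.inr ⟨rfl, rfl, rfl, rfl⟩)⟩ c ?_ ?_ <;> try dsimp only
      any_goals omega
      · rwa [show 2 * r + 5 - (2 * r + 5 - (i + 1)) = i + 1 by omega]
      · rwa [show 2 * r + 5 - (2 * r + 5 - i) = i by omega]
  refine ⟨fun a => (w (4, 2 * r + 5, a, 0) 1, w (4, 2 * r + 5, a, 0) 2), fun a ha b hb e q => ?_⟩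
  have I : ∀ β l, ((β = 0 ∨ β = 3) ∧ l ≤ r + 4 ∨ β = 1 ∧ 1 ≤ l ∧ l ≤ 4 ∨ β = 2 ∧ 1 ≤ l ∧ l ≤ 3) →
    In n r adj (β, l, a, b) := fun _ _ h => .inl ⟨ha, hb, e, h⟩
  have wi : ∀ c ≤ 2, ∀ β, β = 0 ∨ β = 3 → ∀ i ≤ r + 1,
      w (β, r + 4 - i, a, b) c = w (4, 2 * r + 5, o (β, 0, a, b), 0) c := by
    intro c hc β hβ i
    induction i with
    | zero =>
      intro _
      have : o (β, 0, a, b) < n := by unfold o; split_ifs <;> assumption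
      refine .trans ?_ (tr c hc _ this r le_rfl _ (ad_lt hn ha hb))
      refine ar (I _ _ (by omega)) (.inr (.inl ⟨rfl, this, ?_, ?_, ?_⟩))
        ⟨?_, .inr (.inl ⟨hβ, rfl, rfl, ?_⟩)⟩ c ?_ ?_ <;> try dsimp only
      any_goals omega
      · rw [show 2 * r + 5 - (2 * r + 5 - r) = r by omega]; exact ad_lt hn ha hb
      · rw [ad, if_neg (by dsimp only; omega)]
    | succ i ih =>
      intro hi
      refine .trans ?_ (ih (by omega))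
      refine ar (I β (r + 4 - (i + 1)) ?_) (I β (r + 4 - i) ?_) ⟨?_, .inl ⟨?_, ?_, rfl, .inl rfl⟩⟩ c ?_ ?_ <;>
        (try dsimp only) <;> omega
  have g : ∀ β l β', ((β = 0 ∨ β = 3) ∧ l ≤ 3 ∨ (β = 1 ∨ β = 2) ∧ 1 ≤ l ∧ l ≤ 3) → β' < 4 → (l = 3 → β' ≠ 2) →
      (β = β' ∨ l = 0 ∧ (β = 0 ∧ β' = 1 ∨ β = 3 ∧ β' = 2) ∨ l = 3 ∧ β = 2 ∧ β' = 1) →
      ∀ c ≤ k, c ≠ l → w (β, l, a, b) c = w (β', l + 1, a, b) c := fun β l β' h1 h2 h3 h4 =>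
    ar (I _ _ (by omega)) (I _ _ (by omega)) ⟨rfl, .inl ⟨by omega, h2, rfl, h4⟩⟩
  have p0 := g 0 0 0 (by omega) (by omega) (by omega) (by omega)
  have p1 := g 0 0 1 (by omega) (by omega) (by omega) (by omega)
  have p2 := g 3 0 2 (by omega) (by omega) (by omega) (by omega)
  have p3 := g 3 0 3 (by omega) (by omega) (by omega) (by omega)
  have y := fun β (h : β < 4) => g β 1 β (by omega) h (by omega) (by omega)
  have x := fun β (h : β < 4) => g β 2 β (by omega) h (by omega) (by omega)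
  have w0 := g 0 3 0 (by omega) (by omega) (by omega) (by omega)
  have w1 := g 1 3 1 (by omega) (by omega) (by omega) (by omega)
  have w2 := g 2 3 1 (by omega) (by omega) (by omega) (by omega)
  have n1 : w (0, 1, a, b) 0 ≠ w (1, 1, a, b) 0 := fun z => by
    simpa using (hw _ _ (I 0 1 (by omega)) (I 1 1 (by omega))).1 rfl fun c hc => by
      by_cases q : c = 0
      exacts [q ▸ z, (p0 c (by omega) q).symm.trans (p1 c (by omega) q)]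
  have n2 : w (2, 1, a, b) 0 ≠ w (3, 1, a, b) 0 := fun z => by
    simpa using (hw _ _ (I 2 1 (by omega)) (I 3 1 (by omega))).1 rfl fun c hc => by
      by_cases q : c = 0
      exacts [q ▸ z, (p2 c (by omega) q).symm.trans (p3 c (by omega) q)]
  have yx : ∀ β < 4, ∀ c ≤ k, c ≠ 1 → c ≠ 2 → w (β, 1, a, b) c = w (β, 3, a, b) c := fun β h c a1 a2 a3 =>
    (y β h c a1 a2).trans (x β h c a1 a3)
  have := ((hw _ _ (I 3 3 (by omega)) (I 0 4 (by omega))).2 rfl).2 fun c hc hc' => by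
    have hk' : c ≤ k := by omega
    have hc' : c ≠ 3 := hc'
    rw [← w0 c hk' hc']
    by_cases q1 : c = 1 ∨ c = 2
    · have e1 := wi c (by omega) 0 (by omega) (r + 1) le_rfl
      have e2 := wi c (by omega) 3 (by omega) (r + 1) le_rfl
      rw [show r + 4 - (r + 1) = 3 by omega] at e1 e2
      rw [e1, e2]
      rcases q1 with rfl | rfl
      exacts [(congrArg Prod.fst q).symm, (congrArg Prod.snd q).symm]
    have m : w (1, 1, a, b) c = w (2, 1, a, b) c := by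
      rw [yx 1 (by omega) c hk' (by omega) (by omega), yx 2 (by omega) c hk' (by omega) (by omega), w1 c hk' hc',
        w2 c hk' hc']
    rw [← yx 0 (by omega) c hk' (by omega) (by omega), ← yx 3 (by omega) c hk' (by omega) (by omega)]
    by_cases q : c = 0
    · subst q
      rw [m] at n1
      revert n1 n2
      cases w (0, 1, a, b) 0 <;> cases w (2, 1, a, b) 0 <;> cases w (3, 1, a, b) 0 <;> simp
    · rw [← p3 c hk' q, p2 c hk' q, ← m, ← p1 c hk' q, p0 c hk' q]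
  simp [A] at this

end Pool.Agent.H.MP_868529_lc
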