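import Pool.Agent.H.MP_868529_lc.B

namespace Pool.Agent.H.MP_868529_lc

variable {n r : ℕ} {adj : ℕ → ℕ → Prop}

def wd (n r : ℕ) (col : ℕ → Bool × Bool) (x : K) (c : ℕ) : Bool :=
  if x.1 = 5 then decide (c = 2 * r + 5) || x.2.2.2.testBit c else
  if c = 0 then decide (x.1 = 1 ∨ x.1 = 2) else
  if c = 1 then decide (2 ≤ x.2.1 ∧ x.1 ≠ 1 ∧ x.1 ≠ 2) && (col (o x)).1 else
  if c = 2 then decide (3 ≤ x.2.1 ∧ x.1 ≠ 1 ∧ x.1 ≠ 2) && (col (o x)).2 else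
  if c = 3 then decide (x.2.1 ≤ 3 ∧ (x.1 = 2 ∨ x.1 = 3)) else
  if c < r + 4 then decide (c < x.2.1) && (o x).testBit (c - 4) else
  decide (r + 5 ≤ c ∧ c < 2 * r + 5 ∧ x.2.1 ≤ c) && (ad n x).testBit (c - max (r + 5) x.2.1)

theorem bits {m x y : ℕ} (hx : x < 2 ^ m) (hy : y < 2 ^ m) (h : ∀ i < m, x.testBit i = y.testBit i) : x = y :=
  Nat.eq_of_testBit_eq fun i => by
    by_cases q : i < m
    · exact h i q
    · have := Nat.pow_le_pow_right two_pos (not_lt.1 q)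
      rw [Nat.testBit_lt_two_pow (by omega), Nat.testBit_lt_two_pow (by omega)]

variable {col : ℕ → Bool × Bool} {x : K}

theorem agree (hn : n * n ≤ 2 ^ r) {x y : K} (a : In n r adj x) (b : In n r adj y) {l : ℕ}
    (H : ∀ c < 2 * r + 6, c ≠ l → wd n r col x c = wd n r col y c) (hl : l ≠ 2 * r + 5) :
    (x.1 = 5 ↔ y.1 = 5) ∧ (x.1 ≠ 5 →
      (l ≠ 0 → (x.1 = 1 ∨ x.1 = 2 ↔ y.1 = 1 ∨ y.1 = 2)) ∧
      (l ≠ 3 → (x.2.1 ≤ 3 ∧ (x.1 = 2 ∨ x.1 = 3) ↔ y.2.1 ≤ 3 ∧ (y.1 = 2 ∨ y.1 = 3))) ∧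
      (3 ≤ l → 3 ≤ x.2.1 → 3 ≤ y.2.1 → x.1 ≠ 1 → x.1 ≠ 2 → y.1 ≠ 1 → y.1 ≠ 2 → col (o x) = col (o y)) ∧
      (r + 4 ≤ l → r + 4 ≤ x.2.1 → r + 4 ≤ y.2.1 → o x = o y) ∧
      ∀ i, max (r + 5) y.2.1 + i < 2 * r + 5 → max (r + 5) y.2.1 + i ≠ l → x.2.1 ≤ y.2.1 →
        (ad n x).testBit (max (r + 5) y.2.1 + i - max (r + 5) x.2.1) = (ad n y).testBit i) := by
  have e : x.1 = 5 ↔ y.1 = 5 := by
    have := H (2 * r + 5) (by omega) hl.symm
    unfold wd at this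
    split_ifs at this <;> simp_all <;> omega
  refine ⟨e, fun h => ?_⟩
  have h' := mt e.2 h
  simp only [wd, h, h', if_false] at H
  have on : ∀ {x}, In n r adj x → x.1 ≠ 5 → o x < 2 ^ r := fun {x} a h => by
    have : o x < n := by unfold o In at *; split_ifs <;> omega
    nlinarith
  refine ⟨fun q => decide_eq_decide.1 (H 0 (by omega) q.symm), fun q => decide_eq_decide.1 (H 3 (by omega) q.symm),
    fun _ _ _ _ _ _ _ => Prod.ext ?_ ?_, fun _ _ _ => bits (on a h) (on b h') fun i hi => ?_, fun i _ _ _ => ?_⟩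
  · simpa [show 2 ≤ x.2.1 by omega, show 2 ≤ y.2.1 by omega, *] using H 1 (by omega) (by omega)
  · simpa [*] using H 2 (by omega) (by omega)
  · simpa [show i + 4 < x.2.1 by omega, show i + 4 < y.2.1 by omega, hi] using H (i + 4) (by omega) (by omega)
  · have := H (max (r + 5) y.2.1 + i) (by omega) (by omega)
    iterate 10 rw [if_neg (by omega)] at this
    rw [decide_eq_true (by omega), decide_eq_true (by omega)] at this
    simpa using this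

theorem gad (hn : n * n ≤ 2 ^ r) {x y : K} (a : In n r adj x) (b : In n r adj y) (h : x.1 ≠ 5) (h' : y.1 ≠ 5)
    (h1 : x.2.1 ≤ r + 4) (h2 : y.2.1 ≤ r + 5) (H : ∀ i < r,
      (ad n x).testBit (max (r + 5) y.2.1 + i - max (r + 5) x.2.1) = (ad n y).testBit i) :
    ad n x = ad n y ∧ (y.2.1 ≤ r + 4 → x.2.2 = y.2.2) := by
  have on : ∀ {x}, In n r adj x → x.1 ≠ 5 → x.2.1 ≤ r + 5 → ad n x < 2 ^ r := fun {x} a h h' => by
    unfold ad
    split_ifs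
    · have : x.2.2.2 < 2 ^ (2 * r + 5 - x.2.1) ∧ 2 * r + 5 - x.2.1 = r := by unfold In at a; omega
      exact this.2 ▸ this.1
    · exact ad_lt hn (by unfold In at a; omega) (by unfold In at a; omega)
  have e : ad n x = ad n y := bits (on a h (by omega)) (on b h' h2) fun i hi => by
    convert H i hi using 2; omega
  refine ⟨e, fun q => ?_⟩
  have a' : x.1 ≠ 4 ∧ x.2.2.2 < n := by unfold In at a; omega
  have b' : y.1 ≠ 4 ∧ y.2.2.2 < n := by unfold In at b; omega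
  rw [ad, ad, if_neg a'.1, if_neg b'.1] at e
  have : x.2.2.1 = y.2.2.1 := by
    by_contra c
    rcases Nat.lt_or_gt_of_ne c with c | c <;> nlinarith [a'.2, b'.2]
  exact Prod.ext this (by rw [this] at e; omega)

theorem In.t (a : In n r adj x) : (x.2.1 ≤ r + 4 ∧ (x.1 = 0 ∨ x.1 = 3 ∨ x.1 = 1 ∧ 1 ≤ x.2.1 ∧ x.2.1 ≤ 4 ∨
    x.1 = 2 ∧ 1 ≤ x.2.1 ∧ x.2.1 ≤ 3 ∨ x.1 = 5 ∧ x.2.1 = 0) ∨ x.1 = 4 ∧ r + 5 ≤ x.2.1 ∧ x.2.1 ≤ 2 * r + 5) := by
  unfold In at a; omega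

theorem In.t4 (a : In n r adj x) (h : ¬ x.2.1 ≤ r + 4) :
    x.1 = 4 ∧ x.2.1 ≤ 2 * r + 5 ∧ x.2.2.2 < 2 ^ (2 * r + 5 - x.2.1) := by
  unfold In at a; omega

theorem In.t5 (a : In n r adj x) (h : x.1 = 5) : x.2.1 = 0 ∧ x.2.2.1 = 0 ∧ x.2.2.2 < 2 ^ (2 * r + 5) := by
  unfold In at a; omega

theorem cl (hc : ∀ a < n, ∀ b < n, adj a b → col a ≠ col b) {x y : K} (a : In n r adj x) (e : x.2.2 = y.2.2) {l : ℕ}
    (g : 3 ≤ l → 3 ≤ x.2.1 → 3 ≤ y.2.1 → x.1 ≠ 1 → x.1 ≠ 2 → y.1 ≠ 1 → y.1 ≠ 2 → col (o x) = col (o y)) :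
    ¬ ((x.1 = 0 ∧ y.1 = 3 ∨ x.1 = 3 ∧ y.1 = 0) ∧ 3 ≤ l ∧ 3 ≤ x.2.1 ∧ 3 ≤ y.2.1) := fun ⟨h, h1, h2, h3⟩ => by
  have g := g h1 h2 h3 (by omega) (by omega) (by omega) (by omega)
  have : x.2.2.1 < n ∧ x.2.2.2 < n ∧ adj x.2.2.1 x.2.2.2 := by
    obtain a | a | a := a
    exacts [⟨a.1, a.2.1, a.2.2.1⟩, by omega, by omega]
  have := hc _ this.1 _ this.2.1 this.2.2
  rcases h with h | h <;> simp [o, h, ← e, this, this.symm] at g

theorem b1 (hn : n * n ≤ 2 ^ r) (hc : ∀ a < n, ∀ b < n, adj a b → col a ≠ col b) {x y : K} (a : In n r adj x)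
    (b : In n r adj y) (e : x.2.1 = y.2.1) (H : ∀ c < 2 * r + 6, wd n r col x c = wd n r col y c) : x = y := by
  obtain ⟨f, g⟩ := agree hn a b (l := 2 * r + 6) (fun c h _ => H c h) (by omega)
  by_cases h : x.1 = 5
  · have h' := f.1 h
    have a := a.t5 h
    have b := b.t5 h'
    have : x.2.2.2 = y.2.2.2 := bits a.2.2 b.2.2 fun i hi => by simpa [wd, h, h', hi.ne] using H i (by omega)
    ext <;> omega
  obtain ⟨g1, g2, g3, g4, g5⟩ := g h
  by_cases q : x.2.1 ≤ r + 4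
  · have k := (gad hn a b h (mt f.2 h) q (by omega) fun i _ => g5 i (by omega) (by omega) e.le).2 (by omega)
    have := cl hc a k g3
    have := a.t
    have := b.t
    have := g1 (by omega)
    have := g2 (by omega)
    exact Prod.ext (by omega) (Prod.ext e k)
  · have a' := a.t4 q
    have b' := b.t4 (e ▸ q)
    have := g4 (by omega) (by omega) (by omega)
    simp only [o, ad, a'.1, b'.1, if_true, if_neg (show ¬ 4 = 3 by omega)] at this g5
    have := bits a'.2.2 (e ▸ b'.2.2) fun i _ => by convert g5 i (by omega) (by omega) e.le using 2; omega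
    ext <;> omega

theorem b2 (hn : n * n ≤ 2 ^ r) (hc : ∀ a < n, ∀ b < n, adj a b → col a ≠ col b) {x y : K} (a : In n r adj x)
    (b : In n r adj y) (e : y.2.1 = x.2.1 + 1) (H : ∀ c < 2 * r + 6, c ≠ x.2.1 → wd n r col x c = wd n r col y c) :
    A n x y := by
  obtain ⟨f, g⟩ := agree hn a b H (by have := b.t; omega)
  have h : x.1 ≠ 5 := fun h => by have := a.t5 h; have := b.t5 (f.1 h); omega
  have h' := mt f.2 h
  obtain ⟨g1, g2, g3, g4, g5⟩ := g h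
  refine ⟨e, ?_⟩
  by_cases q : x.2.1 ≤ r + 4
  · have k := gad hn a b h h' q (by omega) fun i _ => g5 i (by omega) (by omega) (by omega)
    by_cases q' : y.2.1 ≤ r + 4
    · have := cl hc a (k.2 q') g3
      have := a.t
      have := b.t
      clear f g3 g4 g5
      exact .inl ⟨by omega, by omega, k.2 q', by omega⟩
    · have b' := (b.t4 q').1
      have := g4 (by omega) (by omega) (by omega)
      rw [o.eq_1 y, if_neg (by omega)] at this
      rw [ad.eq_1 n y, if_pos b'] at k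
      exact .inr (.inl ⟨by have := a.t; omega, b', this.symm, k.1.symm⟩)
  · have a' := a.t4 q
    have b' := b.t4 (by omega)
    have := g4 (by omega) (by omega) (by omega)
    simp only [o, ad, a'.1, b'.1, if_true, if_neg (show ¬ 4 = 3 by omega)] at this g5
    rw [show 2 * r + 5 - x.2.1 = 2 * r + 5 - y.2.1 + 1 by omega, pow_succ] at a'
    refine .inr (.inr ⟨a'.1, b'.1, this.symm, bits b'.2.2 (by omega) fun i _ => ?_⟩)
    rw [Nat.testBit_div_two, ← g5 i (by omega) (by omega) (by omega)]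
    congr 1; omega

theorem dc {P Q : Prop} [Decidable P] [Decidable Q] {s t : Bool} (h : P ↔ Q) (e : P → s = t) :
    (decide P && s) = (decide Q && t) := by
  by_cases p : P <;> simp [← h, p, e]

theorem b3 {x y : K} (a : In n r adj x) (b : In n r adj y) (q : A n x y) {c : ℕ} (h : c ≠ x.2.1) :
    wd n r col x c = wd n r col y c := by
  have a := a.t
  have b := b.t
  obtain ⟨e, q⟩ := q
  have h1 : 1 ≤ x.2.1 → x.1 ≠ 2 → o x = o y := fun _ _ => by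
    obtain ⟨-, -, k, q⟩ | ⟨-, q, k, -⟩ | ⟨p, q, k, -⟩ := q
    · rw [o, o, k, show x.1 = y.1 by omega]
    · rw [o.eq_1 y, if_neg (by omega), k]
    · rw [o, o, if_neg (by omega), if_neg (by omega), k]
  have h2 : r + 5 ≤ c → x.2.1 ≤ c →
      (ad n x).testBit (c - max (r + 5) x.2.1) = (ad n y).testBit (c - max (r + 5) y.2.1) := fun _ _ => by
    obtain ⟨_, _, k, -⟩ | ⟨_, q, -, k⟩ | ⟨p, q, -, k⟩ := q
    · rw [ad, ad, if_neg (by omega), if_neg (by omega), k]; congr 1; omega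
    · rw [ad.eq_1 n y, if_pos q, k]; congr 1; omega
    · rw [ad, ad, if_pos p, if_pos q, k, Nat.testBit_div_two]; congr 1; omega
  have q : x.1 < 4 ∧ y.1 < 4 ∧ (x.1 = y.1 ∨ x.2.1 = 0 ∧ (x.1 = 0 ∧ y.1 = 1 ∨ x.1 = 3 ∧ y.1 = 2) ∨
      x.2.1 = 3 ∧ x.1 = 2 ∧ y.1 = 1) ∨ (x.1 = 0 ∨ x.1 = 3 ∨ x.1 = 4) ∧ y.1 = 4 := by
    obtain ⟨p, q, -, k⟩ | ⟨p, q, -⟩ | ⟨p, q, -⟩ := q
    exacts [.inl ⟨p, q, k⟩, .inr ⟨by omega, q⟩, .inr ⟨by omega, q⟩]
  rw [wd, wd, if_neg (by omega), if_neg (show y.1 ≠ 5 by omega)]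
  split_ifs
  · exact decide_eq_decide.2 (by omega)
  · exact dc (by omega) fun _ => by rw [h1 (by omega) (by omega)]
  · exact dc (by omega) fun _ => by rw [h1 (by omega) (by omega)]
  · exact decide_eq_decide.2 (by omega)
  · exact dc (by omega) fun _ => by rw [h1 (by omega) (by omega)]
  · exact dc (by omega) fun _ => h2 (by omega) (by omega)

theorem bwd (hn : n * n ≤ 2 ^ r) (hc : ∀ a < n, ∀ b < n, adj a b → col a ≠ col b) :
    ∃ k L, Lab (In n r adj) (A n) k L :=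
  bwd0 (lv := fun x => x.2.1) (d := 2 * r + 6) (w := wd n r col)
    (fun _ _ a b => ⟨b1 hn hc a b, fun e => ⟨fun q _ _ => b3 a b q, b2 hn hc a b e⟩⟩)
    (fun x hx => by have := hx.t; omega) fun _ _ h => h.1

end Pool.Agent.H.MP_868529_lc
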