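import Pool.Agent.H.MP_868529_lc.C

namespace Pool.Agent.H.MP_868529_lc

open Pool.Agent.Lib.CX

instance (n r adj) [∀ a b, Decidable (adj a b)] (x) : Decidable (In n r adj x) := by unfold In; infer_instance
instance (n x y) : Decidable (A n x y) := by unfold A; infer_instance

def vs (n r N : ℕ) (adj : ℕ → ℕ → Prop) [∀ a b, Decidable (adj a b)] : List K :=
  (List.range 6 ×ˢ (List.range (2 * r + 6) ×ˢ (List.range (n + 1) ×ˢ List.range N))).filter
    fun x => decide (In n r adj x)

theorem mem_vs {n r N adj} [∀ a b, Decidable (adj a b)] (h : n ≤ N) (h' : 2 ^ (2 * r + 5) ≤ N) (x) :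
    x ∈ vs n r N adj ↔ In n r adj x := by
  obtain ⟨i, c, p, t⟩ := x
  simp only [vs, List.mem_filter, decide_eq_true_eq, List.mem_product, List.mem_range, and_iff_right_iff_imp]
  intro a
  have := Nat.pow_le_pow_right two_pos (Nat.sub_le (2 * r + 5) c)
  unfold In at a
  dsimp only at a
  omega

def adj (g : Gr) (a b : ℕ) : Prop := a ≠ b ∧ (a = g.n ∨ b = g.n) ∨ g.adjB a b = true
instance (g a b) : Decidable (adj g a b) := by unfold adj; infer_instance

def red (g : Gr) : Gr :=
  relGr (vs (g.n + 1) ((g.n + 1) * (g.n + 1)).size (128 * (g.n + 1) ^ 4) (adj g)) fun e => decide (A (g.n + 1) e.1 e.2)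

theorem pt_in {α} [Enc α] {n r : α → ℕ} {x : α → K} {P : α → ℕ → ℕ → Prop} [∀ a b c, Decidable (P a b c)] (h1 : PT n)
    (h2 : PT r) (h3 : PT x) (h6 : PB r) (a1 : PT fun a => decide (P a (x a).2.2.1 (x a).2.2.2)) :
    PT fun a => decide (In (n a) (r a) (P a) (x a)) := by
  have a2 : PT fun a => 2 ^ (2 * r a + 5 - (x a).2.1) := PT.pow (by fun_prop) (by fun_prop) (by fun_prop)
  have a3 : PT fun a => 2 ^ (2 * r a + 5) := PT.pow (by fun_prop) (by fun_prop) (by fun_prop)
  unfold In
  refine PT.decide_or (i := fun _ => inferInstance) (j := fun _ => inferInstance) (.decide_and (by fun_prop)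
    (.decide_and (by fun_prop) (.decide_and a1 (by fun_prop)))) (.decide_or (i := fun _ => inferInstance)
      (j := fun _ => inferInstance) ?_ ?_)
  · exact .decide_and (by fun_prop) (.decide_and (by fun_prop) (.decide_and (by fun_prop) (.decide_and (by fun_prop)
      (.decide_lt (by fun_prop) a2))))
  · exact .decide_and (by fun_prop) (.decide_and (by fun_prop) (.decide_and (by fun_prop) (.decide_lt (by fun_prop) a3)))

theorem pt_vs {α} [Enc α] {n r N : α → ℕ} {g : α → Gr} (h1 : PT n) (h2 : PT r) (h3 : PT N) (h4 : PT g) (h5 : PB n)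
    (h6 : PB r) (h7 : PB N) : PT fun a => vs (n a) (r a) (N a) (adj (g a)) :=
  PT.filter (pt_in (P := fun p => adj (g p.1)) (h1.comp PT.fst') (h2.comp PT.fst') PT.snd' (h6.comp PT.fst')
    (by unfold adj; fun_prop)) (by fun_prop)

set_option synthInstance.maxSize 2000 in
theorem pt_red : PT red := PT.relGr (pt_vs (by fun_prop) (by fun_prop) (by fun_prop) PT.id (by fun_prop) (by fun_prop)
  (by fun_prop)) (by unfold A o ad; fun_prop)

theorem col4 (g : Gr) : g.G.Colorable 3 ↔
    ∃ col : ℕ → Bool × Bool, ∀ a < g.n + 1, ∀ b < g.n + 1, adj g a b → col a ≠ col b := by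
  constructor
  · rintro ⟨c⟩
    let f : Fin 3 → Bool × Bool := ![(false, true), (true, false), (true, true)]
    have f1 : ∀ i j, f i = f j → i = j := by decide
    have f2 : ∀ i, f i ≠ (false, false) := by decide
    refine ⟨fun a => if h : a < g.n then f (c ⟨a, h⟩) else (false, false), fun a ha b hb h => ?_⟩
    obtain ⟨h, rfl | rfl⟩ | h := h
    · simp [show b < g.n by omega, (f2 _).symm]
    · simp [show a < g.n by omega, f2]
    · have : a < g.n ∧ b < g.n := by simp only [Gr.adjB, decide_eq_true_eq] at h; omega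
      simp only [this, dif_pos]
      exact fun e => c.valid ((g.adjB_iff ⟨a, this.1⟩ ⟨b, this.2⟩).1 h) (f1 _ _ e)
  · rintro ⟨c, h⟩
    have := (SimpleGraph.Coloring.mk (G := g.G) (α := {x // x ≠ c g.n}) (fun a => ⟨c a, h a (by omega) _ (by omega)
      (.inl ⟨a.2.ne, .inr rfl⟩)⟩) fun {a b} e q => h a (by omega) b (by omega) (.inr ((g.adjB_iff a b).2 e))
        (congrArg Subtype.val q)).colorable
    simpa using this

theorem hard : NPHard fun a : Gr => InL2 a.arc := col3_hard.red ⟨red, pt_red, fun g => by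
  have h1 : (g.n + 1) * (g.n + 1) ≤ 2 ^ ((g.n + 1) * (g.n + 1)).size := (Nat.lt_size_self _).le
  have h2 : 2 ^ (2 * ((g.n + 1) * (g.n + 1)).size + 5) ≤ 128 * (g.n + 1) ^ 4 := by
    have p : 0 < ((g.n + 1) * (g.n + 1)).size := Nat.size_pos.2 (by positivity)
    have := Nat.lt_size.1 (Nat.sub_lt p one_pos)
    obtain ⟨s, e⟩ : ∃ s, ((g.n + 1) * (g.n + 1)).size = s + 1 := ⟨_, (Nat.sub_add_cancel p).symm⟩
    rw [e] at this ⊢
    have := Nat.mul_le_mul this this
    rw [show 2 ^ (2 * (s + 1) + 5) = 128 * (2 ^ s * 2 ^ s) by ring]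
    simp only [Nat.add_sub_cancel] at this
    nlinarith
  have h3 : g.n + 1 ≤ 128 * (g.n + 1) ^ 4 := by have := Nat.le_self_pow (n := 4) (by omega) (g.n + 1); omega
  refine (col4 g).trans (.trans ?_ (ls _ _).symm)
  simp only [mem_vs h3 h2, decide_eq_true_eq]
  exact ⟨fun ⟨_, h⟩ => bwd h1 h, fun ⟨_, _, h⟩ => fwd h1 h⟩⟩

end Pool.Agent.H.MP_868529_lc
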