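import Pool.Agent.Lib.lead.CXGraph

namespace Pool.Agent.H.MP_868529_lc

/-- the digraph with arc relation `A` has a `(2, k + 1)`-labeling for some `k` -/
def InL2 {V : Type} (A : V → V → Prop) : Prop :=
  ∃ (k : ℕ) (L : V → Fin (k + 1) → Bool), Function.Injective L ∧
    ∀ u v, A u v ↔ Fin.tail (L u) = Fin.init (L v)

end Pool.Agent.H.MP_868529_lc
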